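import Pool.Agent.Helper47.ME.Goals

open MeasureTheory Set Filter Topology
open scoped ENNReal Quaternion
open Pool.Agent.Helper47.AQ Pool.Agent.Helper72.MK Pool.Agent.Helper47.ME

noncomputable section

namespace Pool.Agent.Helper31.ME

theorem chde (h1 : CHORDStmt) (h2 : SUBEStmt) : CHDEStmt := by
  intro P hP x u y y' hx hxu hy hy' hle
  refine ⟨![x, x + u, y, y'], ?_⟩
  have hmem : ∀ i, (![x, x + u, y, y'] : Fin 4 → Fin 2 → ℝ) i ∈
      convexHull ℝ (range (![x, x + u, y, y'] : Fin 4 → Fin 2 → ℝ)) := fun i =>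
    subset_convexHull ℝ _ (mem_range_self i)
  have hcl : IsClosed (convexHull ℝ (range (![x, x + u, y, y'] : Fin 4 → Fin 2 → ℝ))) :=
    ((finite_range _).isCompact_convexHull ℝ).isClosed
  have hsub : convexHull ℝ (range (![x, x + u, y, y'] : Fin 4 → Fin 2 → ℝ)) ⊆ P := by
    refine convexHull_min ?_ hP.conv
    rintro _ ⟨i, rfl⟩
    fin_cases i
    · exact hx
    · exact hxu
    · exact hy
    · exact hy'
  refine h2 2 P _ hP hcl hsub ?_
  have h3 := h1 _ (convex_convexHull ℝ (range (![x, x + u, y, y'] : Fin 4 → Fin 2 → ℝ))) x u y y'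
    (hmem 0) (hmem 1) (hmem 2) (hmem 3)
  calc volume P = ENNReal.ofReal (volume P).toReal :=
        (ENNReal.ofReal_toReal hP.comp.measure_lt_top.ne).symm
    _ ≤ ENNReal.ofReal (|u 0 * (y 1 - y' 1) - u 1 * (y 0 - y' 0)| / 2) :=
        ENNReal.ofReal_le_ofReal hle
    _ ≤ _ := h3

end Pool.Agent.Helper31.ME
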